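import Pool.Agent.Helper50.AY.St

/-! Project AY (MP_b3ce06_al), module AUA: the frame in `MulAut H` (proof as in project GD, module AU). -/

set_option autoImplicit false

namespace Pool.Agent.Helper64.AY

open Pool.Agent.Helper50.AY Pool.Agent.Helper43.GD Polynomial

/-- the system of inner automorphisms -/
private def auSys {L H : Type} [CommRing L] [Group H] (s : Sys L H) : Sys L (MulAut H) where
  E := fun a => MulAut.conj (s.E a)
  F := fun b => MulAut.conj (s.F b)
  Eadd := fun a b => (congrArg MulAut.conj (s.Eadd a b)).trans (map_mul _ _ _)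
  Fadd := fun a b => (congrArg MulAut.conj (s.Fadd a b)).trans (map_mul _ _ _)

private theorem auOm {L H : Type} [CommRing L] [Group H] (s : Sys L H) (u : Lˣ) :
    (auSys s).om u = MulAut.conj (s.om u) := by
  unfold Sys.om auSys
  rw [map_mul, map_mul]

private theorem auConj {H : Type} [Group H] (α : MulAut H) (g : H) :
    α * MulAut.conj g * α⁻¹ = MulAut.conj (α g) := by
  ext y
  simp only [MulAut.mul_apply, MulAut.conj_apply, map_mul, map_inv, MulAut.apply_inv_self]

private theorem auWeyl {L H : Type} [CommRing L] [Group H] (s : Sys L H) (u : Lˣ) (hu : s.Weyl u) :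
    (auSys s).Weyl u := by
  constructor
  · intro a
    rw [auOm]
    change MulAut.conj (s.om u) * MulAut.conj (s.E a) * (MulAut.conj (s.om u))⁻¹ =
      MulAut.conj (s.F _)
    rw [← hu.1, map_mul, map_mul, map_inv]
  · intro a
    rw [auOm]
    change MulAut.conj (s.om u) * MulAut.conj (s.F a) * (MulAut.conj (s.om u))⁻¹ =
      MulAut.conj (s.E _)
    rw [← hu.2, map_mul, map_mul, map_inv]

theorem hAUA (hUNA : StUNA) (hPFA : StPFA) (hWMA : StWMA) (hCT : StCT) : StAUA := by
  classical
  intro L H _ _ x s hR hs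
  obtain ⟨hw1, hwx, hgp, -⟩ := id hs
  have hperf : commutator H = ⊤ := hPFA L H x s hR hw1 hwx hgp
  obtain ⟨hneg, hmul, hinv, hα⟩ := hUNA L H x s hR hs
  have hback : ∀ u : Lˣ, (auSys s).Weyl u → s.Weyl u := by
    intro u hu
    refine hWMA L H x s hR hw1 hwx hgp hperf u ?_ ?_
    · intro a
      have h1 := hu.1 a
      rw [auOm] at h1
      rw [map_mul, map_mul, map_inv]
      exact h1
    · intro a
      have h1 := hu.2 a
      rw [auOm] at h1
      rw [map_mul, map_mul, map_inv]
      exact h1
  let U : Subgroup Lˣ :=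
    { carrier := {u | s.Weyl u}
      mul_mem' := fun {a b} ha hb => hmul a b ha hb
      one_mem' := hw1
      inv_mem' := fun {a} ha => hinv a ha }
  choose! α hα1 hα2 using hα
  let Q : Fr L (MulAut H) :=
    { toSys := auSys s
      U := U
      h := α
      weyl := fun u => ⟨fun hu => auWeyl s u hu, fun hu => hback u hu⟩
      tor := fun u hu => ⟨fun a => (auConj (α u) (s.E a)).trans
          (congrArg MulAut.conj (hα1 u hu a)),
        fun b => (auConj (α u) (s.F b)).trans (congrArg MulAut.conj (hα2 u hu b))⟩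
      cent := fun g hE hF => hCT H hperf (Set.range s.E ∪ Set.range s.F) hgp g
        (fun y hy => hy.elim (fun ⟨a, ha⟩ => ha ▸ hE a) (fun ⟨b, hb⟩ => hb ▸ hF b))
      neg := hneg }
  exact ⟨Q, hwx, fun a => rfl, fun b => rfl⟩

end Pool.Agent.Helper64.AY
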